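import Pool.Agent.helper67FB.Endg

/-!
MP_d8349b_al.  Over every infinite field of characteristic two there is a seven-dimensional
representation of a solvable group whose identities have no finite basis.
-/

namespace Pool.Agent.Results.MP_d8349b_al.EveryInfiniteFieldTwo

/-- The representation `ρ` is finitely based: there is a finite set `S` of identities of `ρ` such
that every identity of `ρ` holds in every representation (over the same field) in which all
elements of `S` are identities. -/
def FinitelyBased {K G V : Type} [Field K] [Group G] [AddCommGroup V] [Module K V]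
    (ρ : Representation K G V) : Prop :=
  ∃ S : Finset (MonoidAlgebra K (FreeGroup ℕ)),
    (∀ s ∈ S, ∀ φ : FreeGroup ℕ →* G,
        Representation.asAlgebraHom (MonoidHom.comp ρ φ) s = 0) ∧
    ∀ (H : Type) [Group H] (W : Type) [AddCommGroup W] [Module K W]
      (τ : Representation K H W),
      (∀ s ∈ S, ∀ ψ : FreeGroup ℕ →* H,
          Representation.asAlgebraHom (MonoidHom.comp τ ψ) s = 0) →
      ∀ u : MonoidAlgebra K (FreeGroup ℕ),
        (∀ φ : FreeGroup ℕ →* G,
            Representation.asAlgebraHom (MonoidHom.comp ρ φ) u = 0) →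
        ∀ ψ : FreeGroup ℕ →* H,
          Representation.asAlgebraHom (MonoidHom.comp τ ψ) u = 0

theorem units_pow (K : Type) [Field K] [Infinite K] (m : ℤ) (hm : m ≠ 0) :
    ∃ t : Kˣ, t ^ m ≠ 1 := by
  by_contra h
  push Not at h
  have hk : m.natAbs ≠ 0 := by omega
  have : NeZero m.natAbs := ⟨hk⟩
  have h1 : ∀ t : Kˣ, t ∈ rootsOfUnity m.natAbs K := by
    intro t
    rw [mem_rootsOfUnity]
    have h2 := h t
    rcases Int.natAbs_eq m with h3 | h3
    · rw [h3, zpow_natCast] at h2
      exact h2
    · rw [h3, zpow_neg, inv_eq_one, zpow_natCast] at h2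
      exact h2
  have hfin : Finite Kˣ := by
    have : Finite (rootsOfUnity m.natAbs K) := inferInstance
    exact Finite.of_injective (fun t : Kˣ => (⟨t, h1 t⟩ : rootsOfUnity m.natAbs K))
      (fun a b hab => congrArg Subtype.val hab)
  have : Finite K := by
    refine Finite.of_surjective (fun o : Option Kˣ => o.elim (0 : K) (fun u => (u : K))) ?_
    intro x
    by_cases hx : x = 0
    · exact ⟨none, hx.symm⟩
    · exact ⟨some (Units.mk0 x hx), rfl⟩
  exact not_finite K

theorem result :
    ∀ (K : Type) [Field K] [Infinite K], (2 : K) = 0 →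
      ∃ (G : Type) (_ : Group G) (V : Type) (_ : AddCommGroup V) (_ : Module K V)
        (ρ : Representation K G V),
        Group.IsSolvable G ∧ FiniteDimensional K V ∧ Module.finrank K V = 7 ∧ ¬ FinitelyBased ρ := by
  intro K _ _ h2
  refine ⟨FBR.Con (FBR.gdat K), inferInstance, K × (ZMod 2 → K × K) × (ZMod 2 → K),
    inferInstance, inferInstance, FBR.Con.rep (FBR.gdat K), helper67FB.solv_con, inferInstance, ?_, ?_⟩
  · rw [Module.finrank_prod, Module.finrank_prod, Module.finrank_pi_fintype,
      Module.finrank_pi_fintype]
    simp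
  · exact helper67FB.final h2 (units_pow K)

end Pool.Agent.Results.MP_d8349b_al.EveryInfiniteFieldTwo
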